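import Mathlib

namespace Pool.Agent.Results.MP_cda11a_an.NoShadow

open Set Filter Topology

/-- the (1,2)-shadowing property; entourages are the neighbourhoods of the diagonal -/
def Shadow12 {X : Type} [TopologicalSpace X] (G : Set (X × X)) : Prop :=
  ∀ U ∈ 𝓝ˢ (diagonal X), ∃ V ∈ 𝓝ˢ (diagonal X), ∀ x : ℕ → X,
    (∀ m y, (x m, y) ∈ G → (y, x (m + 1)) ∈ V) →
    ∃ y : ℕ → X, (∀ m, (y m, y (m + 1)) ∈ G) ∧ ∀ m, (y m, x m) ∈ U

def R (x y : ℕ∞ × ℕ∞) : Prop :=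
  y.2 = ⊤ ∧ ((x.1 ≤ x.2 ∧ y.1 = x.1 + 1) ∨ (x.2 + 1 ≤ x.1 ∧ y.1 = 0))

lemma R_closed : IsClosed {p : (ℕ∞ × ℕ∞) × (ℕ∞ × ℕ∞) | R p.1 p.2} := by
  have h0 : IsClosed {p : (ℕ∞ × ℕ∞) × (ℕ∞ × ℕ∞) | p.2.2 = ⊤} :=
    isClosed_eq (by fun_prop) (by fun_prop)
  have h1 : IsClosed {p : (ℕ∞ × ℕ∞) × (ℕ∞ × ℕ∞) | p.1.1 ≤ p.1.2} :=
    isClosed_le (by fun_prop) (by fun_prop)
  have h2 : IsClosed {p : (ℕ∞ × ℕ∞) × (ℕ∞ × ℕ∞) | p.2.1 = p.1.1 + 1} :=
    isClosed_eq (by fun_prop) (by fun_prop)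
  have h3 : IsClosed {p : (ℕ∞ × ℕ∞) × (ℕ∞ × ℕ∞) | p.1.2 + 1 ≤ p.1.1} :=
    isClosed_le (by fun_prop) (by fun_prop)
  have h4 : IsClosed {p : (ℕ∞ × ℕ∞) × (ℕ∞ × ℕ∞) | p.2.1 = 0} :=
    isClosed_eq (by fun_prop) (by fun_prop)
  exact h0.inter ((h1.inter h2).union (h3.inter h4))

theorem result : ∃ (X : Type) (_ : TopologicalSpace X) (G : Set (X × X)),
    Nonempty X ∧ CompactSpace X ∧ T2Space X ∧ TotallyDisconnectedSpace X ∧
    IsClosed G ∧ G.Nonempty ∧ (∀ x, ∃ y, (x, y) ∈ G ∧ (y, x) ∈ G) ∧ ¬ Shadow12 G := by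
  have hpart : ∀ x, ∃ y, R x y := by
    intro x
    rcases le_or_gt x.1 x.2 with h | h
    · exact ⟨(x.1 + 1, ⊤), rfl, Or.inl ⟨h, rfl⟩⟩
    · exact ⟨(0, ⊤), rfl, Or.inr ⟨Order.add_one_le_of_lt h, rfl⟩⟩
  refine ⟨ℕ∞ × ℕ∞, inferInstance, {p | R p.1 p.2 ∨ R p.2 p.1}, inferInstance, inferInstance,
    inferInstance, inferInstance, R_closed.union (R_closed.preimage continuous_swap), ?_, ?_, ?_⟩
  · obtain ⟨y, hy⟩ := hpart (0, 0)
    exact ⟨((0, 0), y), Or.inl hy⟩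
  · intro x
    obtain ⟨y, hy⟩ := hpart x
    exact ⟨y, Or.inl hy, Or.inr hy⟩
  intro h
  have hU : {p : (ℕ∞ × ℕ∞) × (ℕ∞ × ℕ∞) | min p.1.1 2 = min p.2.1 2} ∈ 𝓝ˢ (diagonal (ℕ∞ × ℕ∞)) := by
    refine IsOpen.mem_nhdsSet ?_ |>.2 fun p hp => ?_
    · rw [isOpen_iff_mem_nhds]
      intro p hp
      have hne : min p.1.1 2 ≠ ⊤ := ne_top_of_le_ne_top (by decide) (min_le_right _ _)
      have c1 : Continuous fun q : (ℕ∞ × ℕ∞) × (ℕ∞ × ℕ∞) => min q.1.1 2 := by fun_prop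
      have c2 : Continuous fun q : (ℕ∞ × ℕ∞) × (ℕ∞ × ℕ∞) => min q.2.1 2 := by fun_prop
      filter_upwards [((ENat.isOpen_singleton hne).preimage c1).mem_nhds rfl,
        ((ENat.isOpen_singleton hne).preimage c2).mem_nhds (Eq.symm hp)] with q h1 h2
      exact Eq.trans h1 (Eq.symm h2)
    · have : p.1 = p.2 := hp
      simp only [mem_ofPred_eq, this]
  obtain ⟨V, hV, hs⟩ := h _ hU
  have htube : ∀ᶠ l : ℕ∞ in 𝓝 ⊤, ∀ j ∈ (univ : Set ℕ∞), ((j, (⊤ : ℕ∞)), (j, l)) ∈ V := by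
    refine isCompact_univ.eventually_forall_of_forall_eventually fun j _ => ?_
    have c : Continuous fun z : ℕ∞ × ℕ∞ => ((z.2, (⊤ : ℕ∞)), (z.2, z.1)) := by fun_prop
    exact c.continuousAt.preimage_mem_nhds (mem_nhdsSet_iff_forall.1 hV _ rfl)
  obtain ⟨k, hk, hk1⟩ := ((ENat.tendsto_natCast_nhds_top.eventually htube).and
    (eventually_ge_atTop 1)).exists
  obtain ⟨y, hy, hyx⟩ := hs (fun m => (((m % (k + 2) : ℕ) : ℕ∞), (k : ℕ∞))) (by
    rintro m ⟨y1, y2⟩ (⟨h1, h2⟩ | ⟨h1, -⟩)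
    · simp only at h1 h2
      subst h1
      have hlt := Nat.mod_lt m (show 0 < k + 2 by omega)
      rcases h2 with ⟨h2, rfl⟩ | ⟨h2, rfl⟩
      · have h3 : m % (k + 2) ≤ k := by exact_mod_cast h2
        have : (m + 1) % (k + 2) = m % (k + 2) + 1 := by
          rw [← Nat.mod_add_mod, Nat.mod_eq_of_lt (by omega)]
        simp only [this]; push_cast
        exact hk _ (mem_univ _)
      · have h3 : k + 1 ≤ m % (k + 2) := by exact_mod_cast h2
        have : (m + 1) % (k + 2) = 0 := by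
          rw [← Nat.mod_add_mod, show m % (k + 2) + 1 = k + 2 by omega, Nat.mod_self]
        simp only [this]
        exact hk _ (mem_univ _)
    · simp at h1)
  simp only [mem_ofPred_eq] at hy hyx
  have hc : ∀ m : ℕ, m ≤ k + 1 → min (y m).1 2 = min (m : ℕ∞) 2 := fun m hm => by
    rw [hyx, Nat.mod_eq_of_lt (by omega)]
  have h2 : (y 2).1 ≠ 0 := by
    intro h0
    have := hc 2 (by omega)
    rw [h0] at this; simp at this
  have h1 : (y 1).1 = 1 := by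
    have := hc 1 (by omega)
    rcases le_total (y 1).1 2 with h | h
    · rw [min_eq_left h] at this; simpa using this
    · rw [min_eq_right h] at this; exact absurd this (by decide)
  have inv : ∀ m, 1 ≤ m → m ≤ k + 2 → (y m).1 ≠ ⊤ ∧ (y m).1 ≠ 0 ∧ (y m).1 ≤ (y m).2 := by
    intro m hm
    induction m, hm using Nat.le_induction with
    | base =>
      intro _
      refine ⟨by rw [h1]; decide, by rw [h1]; decide, ?_⟩
      rcases hy 1 with ⟨-, ⟨h, -⟩ | ⟨-, h⟩⟩ | ⟨h, -⟩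
      · exact h
      · exact absurd h h2
      · rw [h]; exact le_top
    | succ m hm ih =>
      intro hm2
      obtain ⟨a1, a2, a3⟩ := ih (by omega)
      rcases hy m with ⟨b1, ⟨-, b2⟩ | ⟨b2, -⟩⟩ | ⟨-, ⟨b1, b2⟩ | ⟨-, b2⟩⟩
      · refine ⟨by rw [b2]; simpa using a1, by rw [b2]; simp, by rw [b1]; exact le_top⟩
      · exfalso
        have h3 : (y m).1 + 1 ≤ (y m).1 := (add_le_add_left a3 1).trans b2
        exact absurd ((ENat.add_one_le_iff a1).1 h3) (lt_irrefl _)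
      · refine ⟨fun h => a1 (by rw [b2, h]; rfl), fun h => ?_, b1⟩
        have e := hc m (by omega)
        rw [b2, h] at e
        have : m = 1 := by
          by_contra hne
          have : (2 : ℕ∞) ≤ m := by exact_mod_cast (show 2 ≤ m by omega)
          rw [min_eq_right this] at e
          exact absurd e (by decide)
        subst this
        exact h2 h
      · exact absurd b2 a2
  have e := hyx (k + 2)
  rw [Nat.mod_self] at e
  have := (inv (k + 2) (by omega) le_rfl).2.1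
  simp [this] at e

end Pool.Agent.Results.MP_cda11a_an.NoShadow
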